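import Pool.Agent.R489.HB.Stm

/-!
# Piece HB-FCC: forest classes are preserved by the contraction of a monochromatic edge
-/

set_option autoImplicit false

namespace Pool.Agent.HP981.HB

open Finset Pool.Agent.R489.HB

theorem FCC (hC : S_CONE) : S_FCC := by
  intro W _ Φ a u v hT huv he hauv hG h5 hFC
  obtain ⟨-, hE⟩ := hC W Φ u v hT huv he hG h5
  unfold FC at *
  have hcard : ∀ e ∈ edg Φ, e.card = 2 := by
    intro e he
    obtain ⟨f, -, hf⟩ := Finset.mem_biUnion.1 he
    exact (Finset.mem_powersetCard.1 hf).2
  let S0 : Set (Finset W) := {e | (e ∈ edg Φ ∧ mono a e) ∧ e ≠ {u, v}}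
  have hm : mono a {u, v} := by
    intro x hx y hy
    simp only [Finset.mem_insert, Finset.mem_singleton] at hx hy
    rcases hx with rfl | rfl <;> rcases hy with rfl | rfl <;> simp [hauv]
  have hins : insert ({u, v} : Finset W) S0 ⊆ {e : Finset W | e ∈ edg Φ ∧ mono a e} := by
    rintro e (rfl | h)
    · exact ⟨he, hm⟩
    · exact h.1
  have hnot : ({u, v} : Finset W) ∉ S0 := fun h => h.2 rfl
  obtain ⟨h1, h2⟩ := (linearIndepOn_insert hnot).1 (hFC.mono hins)
  let π : (W → ZMod 2) →ₗ[ZMod 2] (W → ZMod 2) :=
    { toFun := fun g x => if x = v then 0 else if x = u then g u + g v else g x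
      map_add' := by
        intro g g'
        funext x
        simp only [Pi.add_apply]
        split_ifs
        · simp
        · ring
        · rfl
      map_smul' := by
        intro c g
        funext x
        simp only [Pi.smul_apply, smul_eq_mul, RingHom.id_apply]
        split_ifs
        · simp
        · ring
        · rfl }
  have hπ : ∀ g x, π g x = if x = v then 0 else if x = u then g u + g v else g x := fun _ _ => rfl
  have hπind : ∀ e : Finset W, ¬ ({u, v} ⊆ e) → π (ind e) = ind (mv u v e) := by
    intro e hne
    funext x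
    rw [hπ]
    by_cases hv : v ∈ e
    · have hu : u ∉ e := by
        intro hu
        apply hne
        intro y hy
        simp only [Finset.mem_insert, Finset.mem_singleton] at hy
        rcases hy with rfl | rfl
        · exact hu
        · exact hv
      unfold mv ind
      simp only [hv, hu, if_true, if_false, Finset.mem_insert, Finset.mem_erase]
      by_cases hxv : x = v
      · subst hxv
        simp [huv.symm]
      · by_cases hxu : x = u
        · subst hxu
          simp [huv]
        · simp [hxv, hxu]
    · unfold mv ind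
      simp only [hv, if_false]
      by_cases hxv : x = v
      · subst hxv
        simp [hv]
      · by_cases hxu : x = u
        · subst hxu
          simp [huv]
        · simp [hxv, hxu]
  have hdis : Disjoint (Submodule.span (ZMod 2) (ind '' S0)) (LinearMap.ker π) := by
    rw [Submodule.disjoint_def]
    intro g hg hk
    rw [LinearMap.mem_ker] at hk
    have hku : g u + g v = 0 := by
      have := congrFun hk u
      rw [hπ] at this
      simpa [huv] using this
    have hkx : ∀ x, x ≠ u → x ≠ v → g x = 0 := by
      intro x hxu hxv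
      have := congrFun hk x
      rw [hπ] at this
      simpa [hxu, hxv] using this
    have h01 : ∀ c d : ZMod 2, c + d = 0 → (c = 0 ∧ d = 0) ∨ (c = 1 ∧ d = 1) := by decide
    rcases h01 _ _ hku with ⟨e1, e2⟩ | ⟨e1, e2⟩
    · funext x
      by_cases hxu : x = u
      · rw [hxu, e1]; rfl
      · by_cases hxv : x = v
        · rw [hxv, e2]; rfl
        · rw [hkx x hxu hxv]; rfl
    · exfalso
      apply h2
      have : ind {u, v} = g := by
        funext x
        unfold ind
        by_cases hxu : x = u
        · rw [hxu, e1]; simp
        · by_cases hxv : x = v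
          · rw [hxv, e2]; simp
          · rw [hkx x hxu hxv]; simp [hxu, hxv]
      rw [this]
      exact hg
  have h3 := h1.map_injOn π (LinearMap.injOn_of_disjoint_ker (le_refl _) hdis)
  have h4 : LinearIndepOn (ZMod 2) (ind ∘ mv u v) S0 := by
    refine h3.congr ?_
    intro e he
    refine hπind e fun hsub => he.2 ?_
    exact (Finset.eq_of_subset_of_card_le hsub (by
      rw [hcard e he.1.1, Finset.card_pair huv])).symm
  refine (h4.image_of_comp (mv u v) ind).mono ?_
  rintro e' ⟨he', hm'⟩
  rw [hE] at he'
  obtain ⟨e, he1, rfl⟩ := Finset.mem_image.1 he'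
  obtain ⟨hne, heΦ⟩ := Finset.mem_erase.1 he1
  refine ⟨e, ⟨⟨heΦ, ?_⟩, hne⟩, rfl⟩
  -- `e` is monochromatic
  by_cases hv : v ∈ e
  · have hval : ∀ x ∈ e, ∃ x' ∈ mv u v e, a x = a x' := by
      intro x hx
      unfold mv
      rw [if_pos hv]
      by_cases hxv : x = v
      · exact ⟨u, Finset.mem_insert_self _ _, by rw [hxv, hauv]⟩
      · exact ⟨x, Finset.mem_insert_of_mem (Finset.mem_erase.2 ⟨hxv, hx⟩), rfl⟩
    intro x hx y hy
    obtain ⟨x', hx', ex⟩ := hval x hx
    obtain ⟨y', hy', ey⟩ := hval y hy
    rw [ex, ey]
    exact hm' x' hx' y' hy'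
  · have : mv u v e = e := by
      unfold mv
      rw [if_neg hv]
    rwa [this] at hm'

end Pool.Agent.HP981.HB
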